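import Pool.Agent.E8helper17.CND.S

/-!
# CYC: the cycle graph on `ZMod N` has girth `N`
-/

set_option autoImplicit false

namespace Pool.Agent.E8helper38.CND

open H17CND

theorem cyc_adj {N : ℕ} {a b : ZMod N} (h : (cyc N).Adj a b) :
    ∃ ε : ZMod N, (ε = 1 ∨ ε = -1) ∧ b = a + ε := by
  rw [cyc, SimpleGraph.fromRel_adj] at h
  rcases h.2 with h | h
  · exact ⟨1, Or.inl rfl, h⟩
  · exact ⟨-1, Or.inr rfl, by rw [h]; ring⟩

theorem sign_cases {N : ℕ} {ε ε' : ZMod N} (h : ε = 1 ∨ ε = -1) (h' : ε' = 1 ∨ ε' = -1) :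
    ε' = ε ∨ ε' = -ε := by
  rcases h with rfl | rfl <;> rcases h' with rfl | rfl <;> simp

theorem key {N : ℕ} {u v : ZMod N} (p : (cyc N).Walk u v) (hp : p.IsPath) (h0 : p.length ≠ 0) :
    ∃ ε : ZMod N, (ε = 1 ∨ ε = -1) ∧ p.getVert 1 = u + ε ∧ v = u + ε * (p.length : ZMod N) := by
  induction p with
  | nil => simp at h0
  | @cons u w v h q ih =>
    rw [SimpleGraph.Walk.cons_isPath_iff] at hp
    obtain ⟨ε, hε, hw⟩ := cyc_adj h
    have hg : (SimpleGraph.Walk.cons h q).getVert 1 = w := by simp
    rw [hg]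
    by_cases hq : q.length = 0
    · refine ⟨ε, hε, hw, ?_⟩
      have : w = v := SimpleGraph.Walk.eq_of_length_eq_zero hq
      rw [SimpleGraph.Walk.length_cons, hq, ← this, hw]
      simp
    · obtain ⟨ε', hε', h1, h2⟩ := ih hp.1 hq
      rcases sign_cases hε hε' with h3 | h3
      · subst h3
        refine ⟨ε', hε, hw, ?_⟩
        rw [SimpleGraph.Walk.length_cons]
        push_cast
        linear_combination h2 + hw
      · exfalso
        apply hp.2
        have h4 : q.getVert 1 = u := by rw [h1, hw, h3]; ring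
        rw [← h4]
        exact q.getVert_mem_support 1

theorem CYC : S_CYC := by
  intro N hN v c hc
  cases c with
  | nil => exact absurd hc (by simp)
  | @cons _ w _ h p =>
    have hlen : 3 ≤ (SimpleGraph.Walk.cons h p).length := hc.three_le_length
    rw [SimpleGraph.Walk.cons_isCycle_iff] at hc
    rw [SimpleGraph.Walk.length_cons] at hlen ⊢
    obtain ⟨ε, hε, hw⟩ := cyc_adj h
    obtain ⟨ε', hε', h1, h2⟩ := key p hc.1 (by omega)
    rcases sign_cases hε hε' with h3 | h3
    · subst h3
      have h4 : ε' * ((p.length + 1 : ℕ) : ZMod N) = 0 := by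
        have h5 : v + ε' * ((p.length + 1 : ℕ) : ZMod N) = v := by
          push_cast
          linear_combination - h2 - hw
        simpa using h5
      have h6 : ((p.length + 1 : ℕ) : ZMod N) = 0 := by
        rcases hε with rfl | rfl
        · simpa using h4
        · linear_combination -h4
      rw [ZMod.natCast_eq_zero_iff] at h6
      exact Nat.le_of_dvd (by omega) h6
    · exfalso
      have h4 : p.getVert 1 = v := by rw [h1, hw, h3]; ring
      have h5 : p.getVert p.length = v := p.getVert_length
      have h6 := hc.1.getVert_injOn (show 1 ∈ {i | i ≤ p.length} by simp; omega)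
        (show p.length ∈ {i | i ≤ p.length} by simp) (h4.trans h5.symm)
      omega

end Pool.Agent.E8helper38.CND
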